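import Mathlib
import Pool.Agent.TH264.MP.PL0

/-!
# The Prekopa-Leindler inequality on `Fin k → ℝ` for `lintegral`, all measurable functions

`(∫ f)^s (∫ g)^(1-s) ≤ ∫ h` whenever `f x ^ s * g y ^ (1-s) ≤ h (s x + (1-s) y)`.
Built on the one dimensional inequality for bounded functions of `Pool.Agent.H902R3.ZA`.
-/

set_option autoImplicit false

namespace Pool.Agent.TH264.MP

open MeasureTheory Filter Topology
open scoped ENNReal

open Pool.Agent.TH264.MP.Base

/-- one dimension, all measurable functions -/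
theorem pl1 (s : ℝ) (hs : 0 < s) (hs1 : s < 1) (f g h : ℝ → ℝ≥0∞)
    (hf : Measurable f) (hg : Measurable g) (hh : Measurable h)
    (hfg : ∀ x y, f x ^ s * g y ^ (1 - s) ≤ h (s * x + (1 - s) * y)) :
    (∫⁻ x, f x) ^ s * (∫⁻ x, g x) ^ (1 - s) ≤ ∫⁻ x, h x := by
  have h1s : 0 < 1 - s := by linarith
  -- bounded by `n + 1`
  have hb : ∀ n : ℕ, (∫⁻ x, min (f x) (n + 1 : ℕ)) ^ s * (∫⁻ x, min (g x) (n + 1 : ℕ)) ^ (1 - s)
      ≤ ∫⁻ x, h x := by
    intro n
    set N : ℝ≥0∞ := ((n + 1 : ℕ) : ℝ≥0∞) with hN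
    have hN0 : N ≠ 0 := by rw [hN]; exact_mod_cast Nat.succ_ne_zero n
    have hNt : N ≠ ⊤ := ENNReal.natCast_ne_top _
    have hNi : N⁻¹ ≠ ⊤ := ENNReal.inv_ne_top.2 hN0
    have hNi0 : N⁻¹ ≠ 0 := ENNReal.inv_ne_zero.2 hNt
    have key := PLAaux.main LBM_ok s hs hs1 (fun x => N⁻¹ * min (f x) N)
      (fun x => N⁻¹ * min (g x) N) (fun x => N⁻¹ * h x)
      ((hf.min measurable_const).const_mul _) ((hg.min measurable_const).const_mul _)
      (hh.const_mul _)
      (fun x => by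
        calc N⁻¹ * min (f x) N ≤ N⁻¹ * N := by gcongr; exact min_le_right _ _
          _ = 1 := ENNReal.inv_mul_cancel hN0 hNt)
      (fun x => by
        calc N⁻¹ * min (g x) N ≤ N⁻¹ * N := by gcongr; exact min_le_right _ _
          _ = 1 := ENNReal.inv_mul_cancel hN0 hNt)
      (by
        intro x y
        rw [ENNReal.mul_rpow_of_nonneg _ _ hs.le, ENNReal.mul_rpow_of_nonneg _ _ h1s.le]
        have e : N⁻¹ ^ s * N⁻¹ ^ (1 - s) = N⁻¹ := by
          rw [← ENNReal.rpow_add _ _ hNi0 hNi]; simp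
        calc N⁻¹ ^ s * min (f x) N ^ s * (N⁻¹ ^ (1 - s) * min (g y) N ^ (1 - s))
            = (N⁻¹ ^ s * N⁻¹ ^ (1 - s)) * (min (f x) N ^ s * min (g y) N ^ (1 - s)) := by ring
          _ ≤ N⁻¹ * (f x ^ s * g y ^ (1 - s)) := by
              rw [e]
              gcongr
              · exact min_le_left _ _
              · exact min_le_left _ _
          _ ≤ _ := by gcongr; exact hfg x y)
    rw [lintegral_const_mul _ (hf.min measurable_const),
      lintegral_const_mul _ (hg.min measurable_const), lintegral_const_mul _ hh,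
      ENNReal.mul_rpow_of_nonneg _ _ hs.le, ENNReal.mul_rpow_of_nonneg _ _ h1s.le] at key
    have e : N⁻¹ ^ s * N⁻¹ ^ (1 - s) = N⁻¹ := by
      rw [← ENNReal.rpow_add _ _ hNi0 hNi]; simp
    have e2 : N⁻¹ ^ s * (∫⁻ x, min (f x) N) ^ s * (N⁻¹ ^ (1 - s) * (∫⁻ x, min (g x) N) ^ (1 - s))
        = N⁻¹ * ((∫⁻ x, min (f x) N) ^ s * (∫⁻ x, min (g x) N) ^ (1 - s)) := by
      conv_rhs => rw [← e]
      generalize N⁻¹ ^ s = a1
      generalize N⁻¹ ^ (1 - s) = a2
      ring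
    rw [e2] at key
    exact (ENNReal.mul_le_mul_iff_right hNi0 hNi).1 key
  have trunc : ∀ φ : ℝ → ℝ≥0∞, Measurable φ →
      Tendsto (fun n : ℕ => ∫⁻ x, min (φ x) ((n + 1 : ℕ) : ℝ≥0∞)) atTop (𝓝 (∫⁻ x, φ x)) := by
    intro φ hφ
    refine lintegral_tendsto_of_tendsto_of_monotone
      (fun n => (hφ.min measurable_const).aemeasurable) ?_ ?_
    · refine Eventually.of_forall fun x => ?_
      intro a b hab
      have : ((a + 1 : ℕ) : ℝ≥0∞) ≤ ((b + 1 : ℕ) : ℝ≥0∞) := by exact_mod_cast Nat.succ_le_succ hab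
      exact min_le_min le_rfl this
    · refine Eventually.of_forall fun x => ?_
      have h1 : Tendsto (fun n : ℕ => ((n + 1 : ℕ) : ℝ≥0∞)) atTop (𝓝 ⊤) :=
        ENNReal.tendsto_nat_nhds_top.comp (tendsto_add_atTop_nat 1)
      have h2 := (tendsto_const_nhds (x := φ x)).min h1
      simpa using h2
  have t1 : Tendsto (fun n : ℕ => (∫⁻ x, min (f x) ((n + 1 : ℕ) : ℝ≥0∞)) ^ s) atTop
      (𝓝 ((∫⁻ x, f x) ^ s)) := (ENNReal.continuous_rpow_const.tendsto _).comp (trunc f hf)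
  have t2 : Tendsto (fun n : ℕ => (∫⁻ x, min (g x) ((n + 1 : ℕ) : ℝ≥0∞)) ^ (1 - s)) atTop
      (𝓝 ((∫⁻ x, g x) ^ (1 - s))) := (ENNReal.continuous_rpow_const.tendsto _).comp (trunc g hg)
  rcases eq_or_ne (∫⁻ x, f x) 0 with hf0 | hf0
  · rw [hf0, ENNReal.zero_rpow_of_pos hs, zero_mul]; exact zero_le
  rcases eq_or_ne (∫⁻ x, g x) 0 with hg0 | hg0
  · rw [hg0, ENNReal.zero_rpow_of_pos h1s, mul_zero]; exact zero_le
  have hf0' : (∫⁻ x, f x) ^ s ≠ 0 := by
    intro h0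
    rcases ENNReal.rpow_eq_zero_iff.1 h0 with h | h
    · exact hf0 h.1
    · linarith [h.2]
  have hg0' : (∫⁻ x, g x) ^ (1 - s) ≠ 0 := by
    intro h0
    rcases ENNReal.rpow_eq_zero_iff.1 h0 with h | h
    · exact hg0 h.1
    · linarith [h.2]
  exact le_of_tendsto' (ENNReal.Tendsto.mul t1 (Or.inl hf0') t2 (Or.inl hg0')) hb

/-- splitting off the first coordinate -/
noncomputable def ee (M : ℕ) : ((Fin (M + 1)) → ℝ) ≃ᵐ ℝ × (Fin M → ℝ) :=
  MeasurableEquiv.piFinSuccAbove (fun _ : Fin (M + 1) => ℝ) 0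

lemma ee_symm_zero (M : ℕ) (x : ℝ) (z : Fin M → ℝ) : (ee M).symm (x, z) 0 = x := by
  simp [ee, MeasurableEquiv.piFinSuccAbove]

lemma ee_symm_succ (M : ℕ) (x : ℝ) (z : Fin M → ℝ) (i : Fin M) :
    (ee M).symm (x, z) i.succ = z i := by
  simp [ee, MeasurableEquiv.piFinSuccAbove]

lemma ee_comb (M : ℕ) (s x y : ℝ) (z w : Fin M → ℝ) :
    s • (ee M).symm (x, z) + (1 - s) • (ee M).symm (y, w) =
      (ee M).symm (s * x + (1 - s) * y, s • z + (1 - s) • w) := by
  funext i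
  refine Fin.cases ?_ (fun j => ?_) i
  · simp only [ee_symm_zero, Pi.add_apply, Pi.smul_apply, smul_eq_mul]
  · simp only [ee_symm_succ, Pi.add_apply, Pi.smul_apply, smul_eq_mul]

lemma mp (M : ℕ) : MeasurePreserving (ee M).symm
    ((volume : Measure ℝ).prod (volume : Measure (Fin M → ℝ)))
    (volume : Measure (Fin (M + 1) → ℝ)) := by
  have h := measurePreserving_piFinSuccAbove (fun _ : Fin (M + 1) => (volume : Measure ℝ)) 0
  exact h.symm _

lemma lint (M : ℕ) (f : (Fin (M + 1) → ℝ) → ℝ≥0∞) (hf : Measurable f) :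
    ∫⁻ x, f x = ∫⁻ x, ∫⁻ z, f ((ee M).symm (x, z)) := by
  rw [← (mp M).lintegral_comp hf, lintegral_prod]
  exact (hf.comp (ee M).symm.measurable).aemeasurable

/-- **Prekopa-Leindler** in every dimension -/
theorem pl (k : ℕ) (s : ℝ) (hs : 0 < s) (hs1 : s < 1) (f g h : (Fin k → ℝ) → ℝ≥0∞)
    (hf : Measurable f) (hg : Measurable g) (hh : Measurable h)
    (hfg : ∀ x y, f x ^ s * g y ^ (1 - s) ≤ h (s • x + (1 - s) • y)) :
    (∫⁻ x, f x) ^ s * (∫⁻ x, g x) ^ (1 - s) ≤ ∫⁻ x, h x := by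
  induction k with
  | zero =>
    have hu : (volume : Measure (Fin 0 → ℝ)) Set.univ = 1 := by
      rw [volume_pi, Measure.pi_univ]; simp
    rw [lintegral_unique, lintegral_unique, lintegral_unique, hu, mul_one, mul_one, mul_one]
    have key : ∀ x y z : Fin 0 → ℝ, f x ^ s * g y ^ (1 - s) ≤ h z := by
      intro x y z
      have h1 := hfg x y
      rwa [Subsingleton.elim (s • x + (1 - s) • y) z] at h1
    exact key _ _ _
  | succ M ih =>
    rw [lint M f hf, lint M g hg, lint M h hh]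
    have meas : ∀ φ : (Fin (M + 1) → ℝ) → ℝ≥0∞, Measurable φ →
        Measurable fun p : ℝ × (Fin M → ℝ) => φ ((ee M).symm p) :=
      fun φ hφ => hφ.comp (ee M).symm.measurable
    have meas1 : ∀ φ : (Fin (M + 1) → ℝ) → ℝ≥0∞, Measurable φ → ∀ x : ℝ,
        Measurable fun z : Fin M → ℝ => φ ((ee M).symm (x, z)) :=
      fun φ hφ x => (meas φ hφ).comp measurable_prodMk_left
    refine pl1 s hs hs1 _ _ _ (meas f hf).lintegral_prod_right (meas g hg).lintegral_prod_right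
      (meas h hh).lintegral_prod_right ?_
    intro x y
    refine ih _ _ _ (meas1 f hf x) (meas1 g hg y) (meas1 h hh _) ?_
    intro z w
    have := hfg ((ee M).symm (x, z)) ((ee M).symm (y, w))
    rwa [ee_comb] at this

end Pool.Agent.TH264.MP
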