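import Pool.Agent.TH251.MP.Defs
import Pool.Agent.TH264.MP.PL

/-! # `S_PLN` -/

namespace Pool.Agent.TH264.MP

theorem pln : Pool.Agent.TH251.MP.S_PLN :=
  fun m w hw hw1 f g h hf hg hh hfg => pl m w hw hw1 f g h hf hg hh hfg

end Pool.Agent.TH264.MP
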