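import Mathlib

/-!
# One variable decreasing rearrangement on the half line, in `ENNReal`

For `b : ℝ → ENNReal` let `mm b s = |{y > 0 : s < b y}|` and
`rr b t = sup {q : t < mm b q}`. Then `rr b` is equimeasurable with `b` on the half line and the
Hardy-Littlewood inequality holds.
-/

set_option autoImplicit false

namespace Pool.Agent.TH264.MP

open MeasureTheory Filter Topology
open scoped ENNReal NNReal

/-- the rational levels -/
noncomputable def qq (q : ℚ≥0) : ℝ≥0∞ := ENNReal.ofReal (q : ℝ)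

theorem qq_mono : Monotone qq := by
  intro a b h
  apply ENNReal.ofReal_le_ofReal
  exact_mod_cast h

/-- distribution function on the half line -/
noncomputable def mm (b : ℝ → ℝ≥0∞) (s : ℝ≥0∞) : ℝ≥0∞ :=
  volume ({y | s < b y} ∩ Set.Ioi (0 : ℝ))

/-- decreasing rearrangement -/
noncomputable def rr (b : ℝ → ℝ≥0∞) (t : ℝ) : ℝ≥0∞ :=
  ⨆ q : ℚ≥0, if ENNReal.ofReal t < mm b (qq q) then qq q else 0

theorem mm_anti (b : ℝ → ℝ≥0∞) : Antitone (mm b) := by
  intro s s' h
  exact measure_mono (Set.inter_subset_inter_left _ (fun y hy => lt_of_le_of_lt h hy))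

/-- between an extended real and another there is a rational -/
theorem exists_q {s u : ℝ≥0∞} (h : s < u) : ∃ q : ℚ≥0, s < qq q ∧ qq q < u := by
  obtain ⟨q, hq0, h1, h2⟩ := ENNReal.lt_iff_exists_rat_btwn.1 h
  exact ⟨⟨q, hq0⟩, h1, h2⟩

theorem mm_eq_iSup (b : ℝ → ℝ≥0∞) (s : ℝ≥0∞) :
    mm b s = ⨆ q : {q : ℚ≥0 // s < qq q}, mm b (qq q) := by
  have h1 : {y | s < b y} ∩ Set.Ioi (0 : ℝ) = ⋃ q : {q : ℚ≥0 // s < qq q},
      ({y | qq q < b y} ∩ Set.Ioi (0 : ℝ)) := by
    ext y
    simp only [Set.mem_inter_iff, Set.mem_ofPred_eq, Set.mem_iUnion]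
    constructor
    · rintro ⟨hy, hy0⟩
      obtain ⟨q, hq1, hq2⟩ := exists_q hy
      exact ⟨⟨q, hq1⟩, hq2, hy0⟩
    · rintro ⟨q, hq, hy0⟩
      exact ⟨q.2.trans hq, hy0⟩
  unfold mm
  rw [h1]
  apply Directed.measure_iUnion
  intro q q'
  rcases le_total q.1 q'.1 with h | h
  · exact ⟨q, subset_rfl, Set.inter_subset_inter_left _
      (fun y hy => lt_of_le_of_lt (qq_mono h) hy)⟩
  · exact ⟨q', Set.inter_subset_inter_left _
      (fun y hy => lt_of_le_of_lt (qq_mono h) hy), subset_rfl⟩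

/-- the level sets of the rearrangement -/
theorem lt_rr (b : ℝ → ℝ≥0∞) (s : ℝ≥0∞) (t : ℝ) :
    s < rr b t ↔ ENNReal.ofReal t < mm b s := by
  rw [mm_eq_iSup, lt_iSup_iff]
  unfold rr
  rw [lt_iSup_iff]
  constructor
  · rintro ⟨q, hq⟩
    split_ifs at hq with h
    · exact ⟨⟨q, hq⟩, h⟩
    · exact absurd hq not_lt_zero
  · rintro ⟨q, hq⟩
    refine ⟨q.1, ?_⟩
    rw [if_pos hq]
    exact q.2

theorem vol_lt (m : ℝ≥0∞) :
    volume ({t : ℝ | ENNReal.ofReal t < m} ∩ Set.Ioi (0 : ℝ)) = m := by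
  rcases eq_or_ne m ⊤ with h | h
  · subst h
    have : {t : ℝ | ENNReal.ofReal t < ⊤} ∩ Set.Ioi (0 : ℝ) = Set.Ioi 0 := by
      ext t; simp
    rw [this, Real.volume_Ioi]
  · have : {t : ℝ | ENNReal.ofReal t < m} ∩ Set.Ioi (0 : ℝ) = Set.Ioo 0 m.toReal := by
      ext t
      simp only [Set.mem_inter_iff, Set.mem_ofPred_eq, Set.mem_Ioi, Set.mem_Ioo]
      constructor
      · rintro ⟨h1, h2⟩
        exact ⟨h2, (ENNReal.ofReal_lt_iff_lt_toReal h2.le h).1 h1⟩
      · rintro ⟨h1, h2⟩
        exact ⟨(ENNReal.ofReal_lt_iff_lt_toReal h1.le h).2 h2, h1⟩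
    rw [this, Real.volume_Ioo, sub_zero, ENNReal.ofReal_toReal h]

/-- equimeasurability -/
theorem mm_rr (b : ℝ → ℝ≥0∞) (s : ℝ≥0∞) : mm (rr b) s = mm b s := by
  have : {y | s < rr b y} = {t : ℝ | ENNReal.ofReal t < mm b s} := by
    ext t; exact lt_rr b s t
  unfold mm
  rw [this]
  exact vol_lt _

/-- layer cake for `ENNReal`-valued functions -/
theorem cake {α : Type*} [MeasurableSpace α] (μ : Measure α) [SFinite μ] (f : α → ℝ≥0∞)
    (hf : Measurable f) :
    ∫⁻ x, f x ∂μ = ∫⁻ s in Set.Ioi (0 : ℝ), μ {x | ENNReal.ofReal s < f x} := by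
  have h1 : ∀ x, f x = ∫⁻ s in Set.Ioi (0 : ℝ),
      {s : ℝ | ENNReal.ofReal s < f x}.indicator (fun _ => (1 : ℝ≥0∞)) s := by
    intro x
    have hm : MeasurableSet {s : ℝ | ENNReal.ofReal s < f x} :=
      measurableSet_lt ENNReal.measurable_ofReal measurable_const
    rw [lintegral_indicator hm, setLIntegral_one, Measure.restrict_apply hm, vol_lt]
  have hE : MeasurableSet {p : α × ℝ | ENNReal.ofReal p.2 < f p.1} :=
    measurableSet_lt (ENNReal.measurable_ofReal.comp measurable_snd) (hf.comp measurable_fst)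
  calc ∫⁻ x, f x ∂μ = ∫⁻ x, (∫⁻ s in Set.Ioi (0 : ℝ),
      {s : ℝ | ENNReal.ofReal s < f x}.indicator (fun _ => (1 : ℝ≥0∞)) s) ∂μ :=
        lintegral_congr h1
    _ = ∫⁻ s in Set.Ioi (0 : ℝ), (∫⁻ x,
        {s : ℝ | ENNReal.ofReal s < f x}.indicator (fun _ => (1 : ℝ≥0∞)) s ∂μ) := by
        apply lintegral_lintegral_swap
        have : (Function.uncurry fun (x : α) (s : ℝ) =>
            {s : ℝ | ENNReal.ofReal s < f x}.indicator (fun _ => (1 : ℝ≥0∞)) s)
            = {p : α × ℝ | ENNReal.ofReal p.2 < f p.1}.indicator (fun _ => (1 : ℝ≥0∞)) := by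
          ext p
          simp [Function.uncurry, Set.indicator]
        rw [this]
        exact (measurable_const.indicator hE).aemeasurable
    _ = _ := by
        refine lintegral_congr fun s => ?_
        have : (fun x => {s : ℝ | ENNReal.ofReal s < f x}.indicator (fun _ => (1 : ℝ≥0∞)) s)
            = {x | ENNReal.ofReal s < f x}.indicator (fun _ => (1 : ℝ≥0∞)) := by
          ext x
          simp [Set.indicator]
        rw [this, lintegral_indicator (measurableSet_lt measurable_const hf), setLIntegral_one]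

theorem measurable_rr (b : ℝ → ℝ≥0∞) : Measurable (rr b) := by
  unfold rr
  refine Measurable.iSup fun q => ?_
  exact Measurable.ite (measurableSet_lt ENNReal.measurable_ofReal measurable_const)
    measurable_const measurable_const

theorem restrict_meas (b : ℝ → ℝ≥0∞) (hb : Measurable b) (s : ℝ≥0∞) :
    (volume.restrict (Set.Ioi (0 : ℝ))) {y | s < b y} = mm b s := by
  rw [Measure.restrict_apply (measurableSet_lt measurable_const hb)]
  rfl

/-- the integral of a power is preserved -/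
theorem lint_rr_rpow (b : ℝ → ℝ≥0∞) (hb : Measurable b) {p : ℝ} (hp : 0 < p) :
    ∫⁻ t in Set.Ioi (0 : ℝ), rr b t ^ p = ∫⁻ y in Set.Ioi (0 : ℝ), b y ^ p := by
  have key : ∀ f : ℝ → ℝ≥0∞, Measurable f → ∫⁻ y in Set.Ioi (0 : ℝ), f y ^ p
      = ∫⁻ s in Set.Ioi (0 : ℝ), mm f (ENNReal.ofReal s ^ (1 / p)) := by
    intro f hf
    rw [cake _ (fun y => f y ^ p) (hf.pow_const p)]
    refine lintegral_congr fun s => ?_
    rw [← restrict_meas f hf]
    congr 1
    ext y
    simp only [Set.mem_ofPred_eq]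
    rw [one_div, ENNReal.rpow_inv_lt_iff hp]
  rw [key _ (measurable_rr b), key b hb]
  exact lintegral_congr fun s => mm_rr b _

/-- among sets of given measure, an antitone function is largest on an initial interval -/
theorem lint_antitone (G : ℝ → ℝ≥0∞) (hG : ∀ x y, 0 < x → x ≤ y → G y ≤ G x)
    {E : Set ℝ} (hE : MeasurableSet E) (hE0 : E ⊆ Set.Ioi 0) :
    ∫⁻ y in E, G y ≤ ∫⁻ y in {t : ℝ | ENNReal.ofReal t < volume E} ∩ Set.Ioi (0 : ℝ), G y := by
  rcases eq_or_ne (volume E) ⊤ with h | h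
  · apply lintegral_mono_set
    intro y hy
    refine ⟨?_, hE0 hy⟩
    rw [h]; exact ENNReal.ofReal_lt_top
  · set m : ℝ := (volume E).toReal with hm
    have hI : {t : ℝ | ENNReal.ofReal t < volume E} ∩ Set.Ioi (0 : ℝ) = Set.Ioo 0 m := by
      ext t
      simp only [Set.mem_inter_iff, Set.mem_ofPred_eq, Set.mem_Ioi, Set.mem_Ioo]
      constructor
      · rintro ⟨h1, h2⟩
        exact ⟨h2, (ENNReal.ofReal_lt_iff_lt_toReal h2.le h).1 h1⟩
      · rintro ⟨h1, h2⟩
        exact ⟨(ENNReal.ofReal_lt_iff_lt_toReal h1.le h).2 h2, h1⟩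
    have hvI : volume (Set.Ioo 0 m) = volume E := by
      rw [Real.volume_Ioo, sub_zero, hm, ENNReal.ofReal_toReal h]
    rw [hI]
    rcases le_or_gt m 0 with hm0 | hm0
    · have : volume E = 0 := by
        rw [← hvI, Real.volume_Ioo, sub_zero]; exact ENNReal.ofReal_of_nonpos hm0
      rw [setLIntegral_measure_zero _ _ this]; exact zero_le
    -- `|E \ I| = |I \ E|`
    have hd : volume (E \ Set.Ioo 0 m) = volume (Set.Ioo 0 m \ E) := by
      have h1 := measure_inter_add_sdiff (μ := volume) E (measurableSet_Ioo (a := (0 : ℝ)) (b := m))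
      have h2 := measure_inter_add_sdiff (μ := volume) (Set.Ioo 0 m) hE
      rw [Set.inter_comm] at h2
      rw [hvI] at h2
      have h3 : volume (E ∩ Set.Ioo 0 m) ≠ ⊤ := ne_top_of_le_ne_top h
        (measure_mono Set.inter_subset_left)
      have h4 : volume (E ∩ Set.Ioo 0 m) + volume (E \ Set.Ioo 0 m)
          = volume (E ∩ Set.Ioo 0 m) + volume (Set.Ioo 0 m \ E) := by rw [h1, h2]
      exact (ENNReal.add_right_inj h3).1 h4
    have e1 : ∫⁻ y in E, G y = (∫⁻ y in E ∩ Set.Ioo 0 m, G y) + ∫⁻ y in E \ Set.Ioo 0 m, G y :=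
      (lintegral_inter_add_sdiff G E measurableSet_Ioo).symm
    have e2 : ∫⁻ y in Set.Ioo 0 m, G y
        = (∫⁻ y in Set.Ioo 0 m ∩ E, G y) + ∫⁻ y in Set.Ioo 0 m \ E, G y :=
      (lintegral_inter_add_sdiff G _ hE).symm
    rw [e1, e2, Set.inter_comm E]
    refine add_le_add le_rfl ?_
    calc ∫⁻ y in E \ Set.Ioo 0 m, G y ≤ ∫⁻ _ in E \ Set.Ioo 0 m, G m := by
          refine setLIntegral_mono' (hE.diff measurableSet_Ioo) fun y hy => ?_
          apply hG m y hm0
          by_contra hlt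
          exact hy.2 ⟨hE0 hy.1, not_le.1 hlt⟩
      _ = ∫⁻ _ in Set.Ioo 0 m \ E, G m := by
          rw [setLIntegral_const, setLIntegral_const, hd]
      _ ≤ ∫⁻ y in Set.Ioo 0 m \ E, G y := by
          refine setLIntegral_mono' (measurableSet_Ioo.diff hE) fun y hy => ?_
          exact hG y m hy.1.1 hy.1.2.le

/-- Hardy-Littlewood -/
theorem hardy_littlewood (G : ℝ → ℝ≥0∞) (hGm : Measurable G)
    (hG : ∀ x y, 0 < x → x ≤ y → G y ≤ G x) (b : ℝ → ℝ≥0∞) (hb : Measurable b) :
    ∫⁻ y in Set.Ioi (0 : ℝ), G y * b y ≤ ∫⁻ t in Set.Ioi (0 : ℝ), G t * rr b t := by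
  have key : ∀ f : ℝ → ℝ≥0∞, Measurable f → ∫⁻ y in Set.Ioi (0 : ℝ), G y * f y
      = ∫⁻ s in Set.Ioi (0 : ℝ),
        ∫⁻ y in {y | ENNReal.ofReal s < f y} ∩ Set.Ioi (0 : ℝ), G y := by
    intro f hf
    have h1 : ∀ y, G y * f y = ∫⁻ s in Set.Ioi (0 : ℝ),
        {s : ℝ | ENNReal.ofReal s < f y}.indicator (fun _ => G y) s := by
      intro y
      have hm : MeasurableSet {s : ℝ | ENNReal.ofReal s < f y} :=
        measurableSet_lt ENNReal.measurable_ofReal measurable_const
      rw [lintegral_indicator hm, setLIntegral_const, Measure.restrict_apply hm, vol_lt]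
    have hE : MeasurableSet {p : ℝ × ℝ | ENNReal.ofReal p.2 < f p.1} :=
      measurableSet_lt (ENNReal.measurable_ofReal.comp measurable_snd) (hf.comp measurable_fst)
    calc ∫⁻ y in Set.Ioi (0 : ℝ), G y * f y = ∫⁻ y in Set.Ioi (0 : ℝ), (∫⁻ s in Set.Ioi (0 : ℝ),
        {s : ℝ | ENNReal.ofReal s < f y}.indicator (fun _ => G y) s) :=
          lintegral_congr h1
      _ = ∫⁻ s in Set.Ioi (0 : ℝ), (∫⁻ y in Set.Ioi (0 : ℝ),
          {s : ℝ | ENNReal.ofReal s < f y}.indicator (fun _ => G y) s) := by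
          apply lintegral_lintegral_swap
          have : (Function.uncurry fun (y : ℝ) (s : ℝ) =>
              {s : ℝ | ENNReal.ofReal s < f y}.indicator (fun _ => G y) s)
              = {p : ℝ × ℝ | ENNReal.ofReal p.2 < f p.1}.indicator (fun p => G p.1) := by
            ext p
            simp [Function.uncurry, Set.indicator]
          rw [this]
          exact ((hGm.comp measurable_fst).indicator hE).aemeasurable
      _ = _ := by
          refine lintegral_congr fun s => ?_
          have hm : MeasurableSet {y | ENNReal.ofReal s < f y} :=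
            measurableSet_lt measurable_const hf
          have : (fun y => {s : ℝ | ENNReal.ofReal s < f y}.indicator (fun _ => G y) s)
              = {y | ENNReal.ofReal s < f y}.indicator (fun y => G y) := by
            ext y
            simp [Set.indicator]
          rw [this, lintegral_indicator hm, Measure.restrict_restrict hm]
  rw [key b hb, key _ (measurable_rr b)]
  refine lintegral_mono fun s => ?_
  have h1 : {y | ENNReal.ofReal s < rr b y} = {t : ℝ | ENNReal.ofReal t < mm b (ENNReal.ofReal s)} := by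
    ext t; exact lt_rr b _ t
  rw [h1]
  exact lint_antitone G hG ((measurableSet_lt measurable_const hb).inter measurableSet_Ioi)
    Set.inter_subset_right

end Pool.Agent.TH264.MP
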