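import Mathlib
import Pool.Agent.TH251.MP.Defs
import Pool.Agent.TH264.MP.Rearr

/-!
# The step of helper807's inequality (PAIR), in the form `Pool.Agent.TH251.MP.S_STEP`
-/

set_option autoImplicit false

namespace Pool.Agent.TH264.MP

open MeasureTheory Filter Topology
open scoped ENNReal NNReal Pointwise

open H801NS

variable {m : ℕ}

theorem ee_add (a b : ℝ) : ee (a + b) = ee a * ee b := by
  unfold ee
  rw [← ENNReal.ofReal_mul (Real.exp_pos _).le, ← Real.exp_add]
  congr 2; ring

theorem ee_anti {a b : ℝ} (h : a ≤ b) : ee b ≤ ee a :=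
  ENNReal.ofReal_le_ofReal (Real.exp_le_exp.2 (by linarith))

theorem ee_ne_zero (a : ℝ) : ee a ≠ 0 := by
  unfold ee; simp [Real.exp_pos]

theorem ee_ne_top (a : ℝ) : ee a ≠ ⊤ := ENNReal.ofReal_ne_top

theorem ee_rpow (a p : ℝ) (_hp : 0 ≤ p) : ee a ^ p = ee (a * p) := by
  unfold ee
  rw [ENNReal.ofReal_rpow_of_pos (Real.exp_pos _), ← Real.exp_mul]
  congr 2; ring

theorem measurable_ee : Measurable ee := by
  unfold ee
  fun_prop

/-- `∫_0^∞ e^{-y/μ} dy = μ` -/
theorem lint_ee {μ : ℝ} (hμ : 0 < μ) : ∫⁻ y in Set.Ioi (0 : ℝ), ee (y / μ) = ENNReal.ofReal μ := by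
  have h1 : ∫ y in Set.Ioi (0 : ℝ), Real.exp (-(1 / μ) * y) = μ := by
    have := integral_exp_mul_Ioi (a := -(1 / μ)) (by
      have : 0 < 1 / μ := by positivity
      linarith) 0
    rw [this]
    simp
  have h2 : IntegrableOn (fun y : ℝ => Real.exp (-(1 / μ) * y)) (Set.Ioi 0) :=
    integrableOn_exp_mul_Ioi (by
      have : 0 < 1 / μ := by positivity
      linarith) 0
  have h3 : ENNReal.ofReal μ = ∫⁻ y in Set.Ioi (0 : ℝ),
      ENNReal.ofReal (Real.exp (-(1 / μ) * y)) := by
    rw [← ofReal_integral_eq_lintegral_ofReal h2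
      (Filter.Eventually.of_forall fun y => (Real.exp_pos _).le), h1]
  rw [h3]
  refine lintegral_congr fun y => ?_
  unfold ee
  congr 2
  ring

theorem meas_slice {f : (Fin m → ℝ) → ℝ → ℝ≥0∞}
    (hf : Measurable fun p : (Fin m → ℝ) × ℝ => f p.1 p.2) (u : Fin m → ℝ) :
    Measurable (f u) := hf.comp measurable_prodMk_left

/-- the slices of `β` in direction `v` -/
noncomputable def bb (β : (Fin m → ℝ) → ℝ≥0∞) (v : Fin m → ℝ) (c : ℝ) (u : Fin m → ℝ) (y : ℝ) :
    ℝ≥0∞ := β (u - y • v) * ee (y / c)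

theorem measurable_bb {β : (Fin m → ℝ) → ℝ≥0∞} (hβ : Measurable β) (v : Fin m → ℝ) (c : ℝ) :
    Measurable fun p : (Fin m → ℝ) × ℝ => bb β v c p.1 p.2 := by
  unfold bb
  have h1 : Measurable fun p : (Fin m → ℝ) × ℝ => p.1 - p.2 • v := by fun_prop
  exact (hβ.comp h1).mul (measurable_ee.comp (measurable_snd.div_const c))

theorem measurable_rr2 {β : (Fin m → ℝ) → ℝ≥0∞} (hβ : Measurable β) (v : Fin m → ℝ) (c : ℝ) :
    Measurable fun p : (Fin m → ℝ) × ℝ => rr (bb β v c p.1) p.2 := by
  unfold rr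
  refine Measurable.iSup fun q => ?_
  refine Measurable.ite ?_ measurable_const measurable_const
  refine measurableSet_lt (ENNReal.measurable_ofReal.comp measurable_snd) ?_
  have hE : MeasurableSet {p : (Fin m → ℝ) × ℝ | qq q < bb β v c p.1 p.2 ∧ 0 < p.2} :=
    (measurableSet_lt measurable_const (measurable_bb hβ v c)).inter
      (measurableSet_lt measurable_const measurable_snd)
  have := measurable_measure_prodMk_left (ν := (volume : Measure ℝ)) hE
  exact this.comp measurable_fst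

attribute [local irreducible] rr mm

/-- the new function, not normalised -/
noncomputable def stp (β : (Fin m → ℝ) → ℝ≥0∞) (v : Fin m → ℝ) (c : ℝ) (u : Fin m → ℝ) : ℝ≥0∞ :=
  (∫⁻ t in Set.Ioi (0 : ℝ), rr (bb β v c (u + t • v)) t ^ (1 + c)) ^ (1 / (1 + c))

theorem measurable_rr3 {β : (Fin m → ℝ) → ℝ≥0∞} (hβ : Measurable β) (v : Fin m → ℝ) (c : ℝ) :
    Measurable fun p : (Fin m → ℝ) × ℝ => rr (bb β v c (p.1 + p.2 • v)) p.2 := by
  have h1 : Measurable fun p : (Fin m → ℝ) × ℝ => (p.1 + p.2 • v, p.2) := by fun_prop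
  exact Measurable.comp (g := fun p : (Fin m → ℝ) × ℝ => rr (bb β v c p.1) p.2)
    (measurable_rr2 hβ v c) h1

theorem measurable_stp {β : (Fin m → ℝ) → ℝ≥0∞} (hβ : Measurable β) (v : Fin m → ℝ) (c : ℝ) :
    Measurable (stp β v c) := by
  unfold stp
  refine Measurable.pow_const ?_ _
  exact ((measurable_rr3 hβ v c).pow_const _).lintegral_prod_right'

/-- domination by a shift passes to the rearrangements -/
theorem rr_shift {b1 b2 : ℝ → ℝ≥0∞} {y0 : ℝ} (hy0 : 0 ≤ y0) {κ : ℝ≥0∞} (hκ0 : κ ≠ 0)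
    (hκt : κ ≠ ⊤) (h : ∀ y, 0 < y → b1 y * κ ≤ b2 (y + y0)) (t : ℝ) :
    rr b1 t * κ ≤ rr b2 t := by
  refine le_of_forall_lt fun s hs => ?_
  have h1 : s / κ < rr b1 t := (ENNReal.div_lt_iff (Or.inl hκ0) (Or.inl hκt)).2 hs
  rw [lt_rr] at h1 ⊢
  refine lt_of_lt_of_le h1 ?_
  unfold mm
  have h2 : (fun y => y + y0) '' ({y | s / κ < b1 y} ∩ Set.Ioi (0 : ℝ))
      ⊆ {y | s < b2 y} ∩ Set.Ioi (0 : ℝ) := by
    rintro _ ⟨y, ⟨hy, hy1⟩, rfl⟩
    refine ⟨?_, ?_⟩
    · have h3 : s < b1 y * κ := (ENNReal.div_lt_iff (Or.inl hκ0) (Or.inl hκt)).1 hy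
      exact lt_of_lt_of_le h3 (h y hy1)
    · have : 0 < y := hy1
      show 0 < y + y0
      linarith
  calc volume ({y | s / κ < b1 y} ∩ Set.Ioi (0 : ℝ))
      = volume ((fun y => y + y0) '' ({y | s / κ < b1 y} ∩ Set.Ioi (0 : ℝ))) := by
        rw [Set.image_add_right, measure_preimage_add_right]
    _ ≤ _ := measure_mono h2

/-- property `P` of the new function, elementary form -/
theorem stp_mul {β : (Fin m → ℝ) → ℝ≥0∞} {v : Fin m → ℝ} {c : ℝ} (hc : 0 < c)
    {z : Fin m → ℝ} {y0 : ℝ} (hy0 : 0 ≤ y0) {κ : ℝ≥0∞} (hκ0 : κ ≠ 0) (hκt : κ ≠ ⊤)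
    (h : ∀ u y, 0 < y → bb β v c u y * κ ≤ bb β v c (u + z) (y + y0)) (u : Fin m → ℝ) :
    stp β v c u * κ ≤ stp β v c (u + z) := by
  unfold stp
  have hp : 0 < 1 + c := by linarith
  have e1 : κ = (κ ^ (1 + c)) ^ (1 / (1 + c)) := by
    rw [← ENNReal.rpow_mul, mul_one_div_cancel hp.ne', ENNReal.rpow_one]
  conv_lhs => rw [e1]
  rw [← ENNReal.mul_rpow_of_nonneg _ _ (by positivity : (0 : ℝ) ≤ 1 / (1 + c))]
  refine ENNReal.rpow_le_rpow ?_ (by positivity)
  rw [← lintegral_mul_const' _ _ (ENNReal.rpow_ne_top_of_nonneg hp.le hκt)]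
  refine lintegral_mono fun t => ?_
  rw [← ENNReal.mul_rpow_of_nonneg _ _ hp.le]
  refine ENNReal.rpow_le_rpow ?_ hp.le
  refine rr_shift hy0 hκ0 hκt (fun y hy => ?_) t
  have e2 : u + z + t • v = (u + t • v) + z := by abel
  rw [e2]
  exact h _ y hy

theorem absorbent_of_NB {B : Set (Fin m → ℝ)} (hB : NB B) : Absorbent ℝ B :=
  absorbent_nhds_zero (mem_interior_iff_mem_nhds.1 hB.zero)

theorem stp_PP {B : Set (Fin m → ℝ)} (hB : NB B) {v : Fin m → ℝ} {c : ℝ} (hc : 0 < c)
    {β : (Fin m → ℝ) → ℝ≥0∞} (hP : Pool.Agent.TH251.MP.PP B β) :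
    Pool.Agent.TH251.MP.PP (convexHull ℝ (B ∪ {c • v})) (stp β v c) := by
  intro u z
  have hne : B.Nonempty := ⟨0, interior_subset hB.zero⟩
  have hsub : B ⊆ convexHull ℝ (B ∪ {c • v}) :=
    Set.subset_union_left.trans (subset_convexHull ℝ _)
  have habs : Absorbent ℝ (convexHull ℝ (B ∪ {c • v})) := (absorbent_of_NB hB).mono hsub
  -- for all `r > gauge`
  have key : ∀ r, gauge (convexHull ℝ (B ∪ {c • v})) z < r →
      stp β v c u * ee r ≤ stp β v c (u + z) := by
    intro r hr
    obtain ⟨r', hr0, hr1, hz⟩ := exists_lt_of_gauge_lt habs hr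
    obtain ⟨w, hw, rfl⟩ := hz
    have hw' : w ∈ convexHull ℝ (insert (c • v) B) := by
      rw [Set.insert_eq, Set.union_comm]; exact hw
    rw [convexHull_insert hne, hB.conv.convexHull_eq] at hw'
    rw [mem_convexJoin] at hw'
    obtain ⟨a, ha, b, hb, hab⟩ := hw'
    rw [Set.mem_singleton_iff] at ha
    subst ha
    obtain ⟨p, q, hp, hq, hpq, rfl⟩ := hab
    calc stp β v c u * ee r ≤ stp β v c u * ee r' := by
          gcongr
          exact ee_anti hr1.le
      _ ≤ _ := by
          refine stp_mul hc (y0 := r' * p * c) (by positivity) (ee_ne_zero _) (ee_ne_top _) ?_ u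
          intro x y hy
          unfold bb
          have e1 : x + r' • (p • c • v + q • b) - (y + r' * p * c) • v
              = (x - y • v) + (r' * q) • b := by
            ext i
            simp only [Pi.add_apply, Pi.sub_apply, Pi.smul_apply, smul_eq_mul]
            ring
          have e2 : ee ((y + r' * p * c) / c) = ee (y / c) * ee (r' * p) := by
            rw [← ee_add]; congr 1; field_simp
          have e3 : gauge B ((r' * q) • b) ≤ r' * q :=
            gauge_le_of_mem (by positivity) (Set.smul_mem_smul_set hb)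
          have e4 : ee r' = ee (r' * p) * ee (r' * q) := by
            rw [← ee_add]; congr 1; rw [← mul_add, hpq, mul_one]
          rw [e1, e2, e4]
          calc β (x - y • v) * ee (y / c) * (ee (r' * p) * ee (r' * q))
              = (β (x - y • v) * ee (r' * q)) * (ee (y / c) * ee (r' * p)) := by ring
            _ ≤ (β (x - y • v) * ee (gauge B ((r' * q) • b))) * (ee (y / c) * ee (r' * p)) := by
                gcongr
                exact ee_anti e3
            _ ≤ _ := by
                gcongr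
                exact hP _ _
  -- pass to the limit
  set g := gauge (convexHull ℝ (B ∪ {c • v})) z with hg
  have hcont : Tendsto (fun n : ℕ => ee (g + 1 / ((n : ℝ) + 1))) atTop (𝓝 (ee g)) := by
    have h1 : Tendsto (fun n : ℕ => g + 1 / ((n : ℝ) + 1)) atTop (𝓝 (g + 0)) :=
      tendsto_const_nhds.add tendsto_one_div_add_atTop_nhds_zero_nat
    rw [add_zero] at h1
    unfold ee
    exact (ENNReal.continuous_ofReal.tendsto _).comp
      (((Real.continuous_exp.comp continuous_neg).tendsto _).comp h1)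
  have h2 := ENNReal.Tendsto.const_mul (a := stp β v c u) hcont (Or.inl (ee_ne_zero g))
  refine le_of_tendsto' h2 fun n => key _ ?_
  have : (0 : ℝ) < 1 / ((n : ℝ) + 1) := by positivity
  linarith

/-- `∫ (stp β)^{1+c} = μ ∫ β^{1+c}` -/
theorem lint_stp {β : (Fin m → ℝ) → ℝ≥0∞} (hβ : Measurable β) (v : Fin m → ℝ) {c : ℝ}
    (hc : 0 < c) :
    ∫⁻ u, stp β v c u ^ (1 + c) = ENNReal.ofReal (c / (1 + c)) * ∫⁻ u, β u ^ (1 + c) := by
  have hp : 0 < 1 + c := by linarith
  have e1 : ∀ u, stp β v c u ^ (1 + c)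
      = ∫⁻ t in Set.Ioi (0 : ℝ), rr (bb β v c (u + t • v)) t ^ (1 + c) := by
    intro u
    unfold stp
    rw [← ENNReal.rpow_mul, one_div_mul_cancel hp.ne', ENNReal.rpow_one]
  calc ∫⁻ u, stp β v c u ^ (1 + c)
      = ∫⁻ u, ∫⁻ t in Set.Ioi (0 : ℝ), rr (bb β v c (u + t • v)) t ^ (1 + c) :=
        lintegral_congr e1
    _ = ∫⁻ t in Set.Ioi (0 : ℝ), ∫⁻ u, rr (bb β v c (u + t • v)) t ^ (1 + c) := by
        apply lintegral_lintegral_swap
        exact ((measurable_rr3 hβ v c).pow_const _).aemeasurable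
    _ = ∫⁻ t in Set.Ioi (0 : ℝ), ∫⁻ u, rr (bb β v c u) t ^ (1 + c) := by
        refine lintegral_congr fun t => ?_
        exact lintegral_add_right_eq_self (fun u => rr (bb β v c u) t ^ (1 + c)) (t • v)
    _ = ∫⁻ u, ∫⁻ t in Set.Ioi (0 : ℝ), rr (bb β v c u) t ^ (1 + c) := by
        symm
        apply lintegral_lintegral_swap
        exact ((measurable_rr2 hβ v c).pow_const _).aemeasurable
    _ = ∫⁻ u, ∫⁻ y in Set.Ioi (0 : ℝ), bb β v c u y ^ (1 + c) := by
        refine lintegral_congr fun u => ?_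
        exact lint_rr_rpow _ (meas_slice (f := bb β v c) (measurable_bb hβ v c) u) hp
    _ = ∫⁻ y in Set.Ioi (0 : ℝ), ∫⁻ u, bb β v c u y ^ (1 + c) := by
        apply lintegral_lintegral_swap
        exact ((measurable_bb hβ v c).pow_const _).aemeasurable
    _ = ∫⁻ y in Set.Ioi (0 : ℝ), ee (y / (c / (1 + c))) * ∫⁻ u, β u ^ (1 + c) := by
        refine lintegral_congr fun y => ?_
        have e2 : ∀ u, bb β v c u y ^ (1 + c)
            = ee (y / (c / (1 + c))) * β (u - y • v) ^ (1 + c) := by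
          intro u
          unfold bb
          rw [ENNReal.mul_rpow_of_nonneg _ _ hp.le, ee_rpow _ _ hp.le, mul_comm]
          congr 2
          field_simp
        rw [lintegral_congr e2, lintegral_const_mul' _ _ (ee_ne_top _)]
        congr 1
        exact lintegral_sub_right_eq_self (fun u => β u ^ (1 + c)) (y • v)
    _ = _ := by
        have h3 : Measurable fun y : ℝ => ee (y / (c / (1 + c))) :=
          measurable_ee.comp (measurable_id.div_const _)
        rw [lintegral_mul_const _ h3, lint_ee (by positivity)]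

/-- `μ ∫ e^{-N_A} β ≤ μ^μ ∫ e^{-N_A} stp β` -/
theorem lint_ee_stp {A : Set (Fin m → ℝ)} (hA : NB A) {v : Fin m → ℝ} (hv : v ∈ A) {c : ℝ}
    (hc : 0 < c) {β : (Fin m → ℝ) → ℝ≥0∞} (hβ : Measurable β) :
    ENNReal.ofReal (c / (1 + c)) * ∫⁻ x, ee (gauge A x) * β x
      ≤ ENNReal.ofReal (c / (1 + c)) ^ (c / (1 + c)) * ∫⁻ x, ee (gauge A x) * stp β v c x := by
  have hp : 0 < 1 + c := by linarith
  set μ : ℝ := c / (1 + c) with hμ
  have hμ0 : 0 < μ := by positivity
  have hgc : Continuous (gauge A) := continuous_gauge hA.conv (mem_interior_iff_mem_nhds.1 hA.zero)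
  have hgm : Measurable (gauge A) := hgc.measurable
  have hgv : gauge A v ≤ 1 := gauge_le_one_of_mem hv
  set e : (Fin m → ℝ) → ℝ≥0∞ := fun x => ee (gauge A x) with he
  have hem : Measurable e := measurable_ee.comp hgm
  -- the antitone weight
  set G : (Fin m → ℝ) → ℝ → ℝ≥0∞ := fun u y => e (u - y • v) * ee y with hG
  have hGm : Measurable fun p : (Fin m → ℝ) × ℝ => G p.1 p.2 := by
    have h1 : Measurable fun p : (Fin m → ℝ) × ℝ => p.1 - p.2 • v := by fun_prop
    exact (hem.comp h1).mul (measurable_ee.comp measurable_snd)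
  have hGa : ∀ u x y, 0 < x → x ≤ y → G u y ≤ G u x := by
    intro u x y _ hxy
    simp only [hG, he]
    rw [← ee_add, ← ee_add]
    apply ee_anti
    have h1 : u - x • v = (u - y • v) + (y - x) • v := by
      ext i
      simp only [Pi.add_apply, Pi.sub_apply, Pi.smul_apply, smul_eq_mul]
      ring
    have h2 : gauge A (u - x • v) ≤ gauge A (u - y • v) + gauge A ((y - x) • v) := by
      conv_lhs => rw [h1]
      exact gauge_add_le hA.conv (absorbent_of_NB hA) _ _
    have h3 : gauge A ((y - x) • v) = (y - x) * gauge A v := by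
      rw [gauge_smul_of_nonneg (by linarith : (0 : ℝ) ≤ y - x), smul_eq_mul]
    have h4 : (y - x) * gauge A v ≤ (y - x) * 1 :=
      mul_le_mul_of_nonneg_left hgv (by linarith)
    linarith
  have hconj : (1 / μ).HolderConjugate (1 + c) := by
    rw [Real.holderConjugate_iff]
    constructor
    · rw [lt_div_iff₀ hμ0, hμ, one_mul, div_lt_one hp]; linarith
    · rw [one_div, inv_inv, hμ]; field_simp; ring
  have hdm : Measurable fun y : ℝ => ee (y / μ) := measurable_ee.comp (measurable_id.div_const _)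
  have heb : Measurable fun x => e x * β x := hem.mul hβ
  calc ENNReal.ofReal μ * ∫⁻ x, e x * β x
      = ∫⁻ x, ∫⁻ y in Set.Ioi (0 : ℝ), ee (y / μ) * (e x * β x) := by
        rw [← lintegral_const_mul _ heb]
        refine lintegral_congr fun x => ?_
        rw [lintegral_mul_const _ hdm, lint_ee hμ0]
    _ = ∫⁻ y in Set.Ioi (0 : ℝ), ∫⁻ x, ee (y / μ) * (e x * β x) := by
        apply lintegral_lintegral_swap
        exact ((hdm.comp measurable_snd).mul (heb.comp measurable_fst)).aemeasurable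
    _ = ∫⁻ y in Set.Ioi (0 : ℝ), ∫⁻ u, G u y * bb β v c u y := by
        refine lintegral_congr fun y => ?_
        rw [← lintegral_sub_right_eq_self (fun x => ee (y / μ) * (e x * β x)) (y • v)]
        refine lintegral_congr fun u => ?_
        simp only [hG, bb]
        have e1 : ee (y / μ) = ee y * ee (y / c) := by
          rw [← ee_add]; congr 1; rw [hμ]; field_simp; ring
        rw [e1]; ring
    _ = ∫⁻ u, ∫⁻ y in Set.Ioi (0 : ℝ), G u y * bb β v c u y := by
        symm
        apply lintegral_lintegral_swap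
        exact (hGm.mul (measurable_bb hβ v c)).aemeasurable
    _ ≤ ∫⁻ u, ∫⁻ t in Set.Ioi (0 : ℝ), G u t * rr (bb β v c u) t := by
        refine lintegral_mono fun u => ?_
        exact hardy_littlewood (G u) (meas_slice (f := G) hGm u) (hGa u) _
          (meas_slice (f := bb β v c) (measurable_bb hβ v c) u)
    _ = ∫⁻ t in Set.Ioi (0 : ℝ), ∫⁻ u, G u t * rr (bb β v c u) t := by
        apply lintegral_lintegral_swap
        exact (hGm.mul (measurable_rr2 hβ v c)).aemeasurable
    _ = ∫⁻ t in Set.Ioi (0 : ℝ), ∫⁻ x, e x * (ee t * rr (bb β v c (x + t • v)) t) := by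
        refine lintegral_congr fun t => ?_
        rw [← lintegral_add_right_eq_self (fun u => G u t * rr (bb β v c u) t) (t • v)]
        refine lintegral_congr fun x => ?_
        simp only [hG, add_sub_cancel_right]
        ring
    _ = ∫⁻ x, ∫⁻ t in Set.Ioi (0 : ℝ), e x * (ee t * rr (bb β v c (x + t • v)) t) := by
        symm
        apply lintegral_lintegral_swap
        exact ((hem.comp measurable_fst).mul ((measurable_ee.comp measurable_snd).mul
          (measurable_rr3 hβ v c))).aemeasurable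
    _ ≤ ∫⁻ x, ENNReal.ofReal μ ^ μ * (e x * stp β v c x) := by
        refine lintegral_mono fun x => ?_
        have hm1 : Measurable fun t : ℝ => rr (bb β v c (x + t • v)) t :=
          meas_slice (f := fun x t => rr (bb β v c (x + t • v)) t) (measurable_rr3 hβ v c) x
        have hm2 : Measurable fun t : ℝ => ee t := measurable_ee
        have hm3 : Measurable fun t : ℝ => ee t * rr (bb β v c (x + t • v)) t := hm2.mul hm1
        rw [lintegral_const_mul _ hm3]
        have h1 := ENNReal.lintegral_mul_le_Lp_mul_Lq (volume.restrict (Set.Ioi (0 : ℝ))) hconj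
          hm2.aemeasurable hm1.aemeasurable
        have h2 : (∫⁻ t in Set.Ioi (0 : ℝ), ee t ^ (1 / μ)) ^ (1 / (1 / μ))
            = ENNReal.ofReal μ ^ μ := by
          rw [one_div_one_div]
          congr 1
          rw [← lint_ee hμ0]
          refine lintegral_congr fun t => ?_
          rw [ee_rpow _ _ (by positivity)]
          congr 1; ring
        calc e x * ∫⁻ t in Set.Ioi (0 : ℝ), ee t * rr (bb β v c (x + t • v)) t
            ≤ e x * (ENNReal.ofReal μ ^ μ * stp β v c x) := by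
              gcongr
              rw [← h2]
              exact h1
          _ = _ := by ring
    _ = ENNReal.ofReal μ ^ μ * ∫⁻ x, e x * stp β v c x := by
        have hm4 : Measurable fun x => e x * stp β v c x := hem.mul (measurable_stp hβ v c)
        rw [lintegral_const_mul _ hm4]

theorem step : Pool.Agent.TH251.MP.S_STEP := by
  intro m A B hA hB v c hv hc β hβ hP
  have hp : 0 < 1 + c := by linarith
  set μ : ℝ := c / (1 + c) with hμ
  have hμ0 : 0 < μ := by positivity
  set M : ℝ≥0∞ := ENNReal.ofReal μ with hM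
  have hM0 : M ≠ 0 := by rw [hM]; simpa using hμ0
  have hMt : M ≠ ⊤ := ENNReal.ofReal_ne_top
  set κ : ℝ≥0∞ := M ^ (-(1 / (1 + c))) with hκ
  have hκ0 : κ ≠ 0 := by
    rw [hκ]; intro h0
    rcases ENNReal.rpow_eq_zero_iff.1 h0 with h | h
    · exact hM0 h.1
    · exact hMt h.1
  have hκt : κ ≠ ⊤ := by
    rw [hκ]; intro h0
    rcases ENNReal.rpow_eq_top_iff.1 h0 with h | h
    · exact hM0 h.1
    · exact hMt h.1
  refine ⟨fun u => κ * stp β v c u, (measurable_stp hβ v c).const_mul _, ?_, ?_, ?_⟩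
  · intro u z
    show κ * stp β v c u * ee (gauge (convexHull ℝ (B ∪ {c • v})) z) ≤ κ * stp β v c (u + z)
    rw [mul_assoc]
    exact mul_le_mul' le_rfl (stp_PP hB hc hP u z)
  · have e1 : ∀ u, (κ * stp β v c u) ^ (1 + c) = M⁻¹ * stp β v c u ^ (1 + c) := by
      intro u
      rw [ENNReal.mul_rpow_of_nonneg _ _ hp.le, hκ, ← ENNReal.rpow_mul]
      congr 1
      rw [neg_mul, one_div_mul_cancel hp.ne', ENNReal.rpow_neg_one]
    rw [lintegral_congr e1, lintegral_const_mul _ ((measurable_stp hβ v c).pow_const _),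
      lint_stp hβ v hc, ← mul_assoc, ENNReal.inv_mul_cancel hM0 hMt, one_mul]
  · have h1 := lint_ee_stp hA hv hc hβ
    rw [← hμ, ← hM] at h1
    have e2 : ∫⁻ x, ee (gauge A x) * (κ * stp β v c x)
        = κ * ∫⁻ x, ee (gauge A x) * stp β v c x := by
      rw [← lintegral_const_mul' _ _ hκt]
      refine lintegral_congr fun x => ?_
      ring
    show ∫⁻ x, ee (gauge A x) * β x ≤ ∫⁻ x, ee (gauge A x) * (κ * stp β v c x)
    rw [e2]
    have e3 : κ = M⁻¹ * M ^ μ := by
      rw [hκ, ← ENNReal.rpow_neg_one, ← ENNReal.rpow_add _ _ hM0 hMt]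
      congr 1
      rw [hμ]; field_simp; ring
    rw [e3, mul_assoc]
    calc ∫⁻ x, ee (gauge A x) * β x
        = M⁻¹ * (M * ∫⁻ x, ee (gauge A x) * β x) := by
          rw [← mul_assoc, ENNReal.inv_mul_cancel hM0 hMt, one_mul]
      _ ≤ M⁻¹ * (M ^ μ * ∫⁻ x, ee (gauge A x) * stp β v c x) := by
          exact mul_le_mul' le_rfl h1

end Pool.Agent.TH264.MP
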